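import Mathlib

set_option autoImplicit false

namespace Pool.Agent.Results.MP_457a5a_gt.NonUniqueHull

open GromovHausdorff Metric Set

/-- `γ : [0,1] → 𝓜` is a Gromov-Hausdorff geodesic. -/
def IsGHGeodesic (γ : unitInterval → GHSpace) : Prop :=
  ∀ s t : unitInterval, dist (γ s) (γ t) = |(s : ℝ) - (t : ℝ)| * dist (γ 0) (γ 1)

/-- The family `φ t : γ t → X` is a Hausdorff realization of `γ` in `X`: every `φ t` is an
isometric embedding and the Hausdorff distance in `X` of the images of `γ s` and `γ t` equals the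
Gromov-Hausdorff distance of `γ s` and `γ t`, for all `s, t`. -/
def IsHausdorffRealization {X : Type} [MetricSpace X] (γ : unitInterval → GHSpace)
    (φ : ∀ t : unitInterval, (γ t).Rep → X) : Prop :=
  (∀ t, Isometry (φ t)) ∧ ∀ s t, hausdorffDist (range (φ s)) (range (φ t)) = dist (γ s) (γ t)

/-- The union of the images of a Hausdorff realization (the candidate for a geodesic hull). -/
def hull {X : Type} {γ : unitInterval → GHSpace} (φ : ∀ t : unitInterval, (γ t).Rep → X) : Set X :=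
  ⋃ t, range (φ t)

/-- The points of the example, in `ℝ³` with the sup metric. -/
def pt (c : ℝ) (t : ℝ) : Fin 3 → ℝ × ℝ × ℝ
  | 0 => (1 + t, 0, 0)
  | 1 => (-(1 + t), 0, 0)
  | 2 => (0, 2, c * t)

/-- three point spaces -/
def K (c : ℝ) (t : ℝ) : Set (ℝ × ℝ × ℝ) := range (pt c t)

/-- the ambient spaces -/
def H (c : ℝ) : Set (ℝ × ℝ × ℝ) := ⋃ t : unitInterval, K c t

instance (c t : ℝ) : Finite (K c t) := inferInstanceAs (Finite (range (pt c t)))

instance (c t : ℝ) : Nonempty (K c t) := ⟨⟨pt c t 0, mem_range_self 0⟩⟩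

theorem dist3 (x y : ℝ × ℝ × ℝ) :
    dist x y = max |x.1 - y.1| (max |x.2.1 - y.2.1| |x.2.2 - y.2.2|) := by
  rw [Prod.dist_eq, Prod.dist_eq, Real.dist_eq, Real.dist_eq, Real.dist_eq]

/-- distances inside the three point spaces do not depend on `c` -/
theorem dist_pt (c t : ℝ) (hc : c ∈ Icc (0 : ℝ) 1) (ht : t ∈ Icc (0 : ℝ) 1) (i j : Fin 3) :
    dist (pt c t i) (pt c t j) = dist (pt 0 t i) (pt 0 t j) := by
  obtain ⟨hc0, hc1⟩ := hc
  obtain ⟨ht0, ht1⟩ := ht
  have h1 : 0 ≤ c * t := mul_nonneg hc0 ht0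
  have h2 : c * t ≤ 1 := by nlinarith
  have h3 : |c| * |t| ≤ 2 := by rw [← abs_mul, abs_of_nonneg h1]; linarith
  fin_cases i <;> fin_cases j <;> simp only [pt, dist3] <;> simp [h3]

theorem dist_pt_move (c s t : ℝ) (hc : c ∈ Icc (0 : ℝ) 1) (i : Fin 3) :
    dist (pt c s i) (pt c t i) ≤ |s - t| := by
  obtain ⟨hc0, hc1⟩ := hc
  have h0 := abs_nonneg (s - t)
  fin_cases i
  · simp only [pt, dist3]
    simp
  · simp only [pt, dist3]
    simp
    rw [show -s + t = -(s - t) by ring, abs_neg]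
  · simp only [pt, dist3]
    simp only [sub_self, abs_zero]
    refine max_le h0 (max_le h0 ?_)
    rw [← mul_sub, abs_mul, abs_of_nonneg hc0]
    nlinarith

theorem dist_pt01 (c t : ℝ) (ht : 0 ≤ t) : dist (pt c t 0) (pt c t 1) = 2 + 2 * t := by
  simp only [pt, dist3]
  rw [abs_of_nonneg (by linarith), sub_self, abs_zero, max_self, max_eq_left (by linarith)]
  ring

theorem dist_pt_le (c t : ℝ) (hc : c ∈ Icc (0 : ℝ) 1) (ht : t ∈ Icc (0 : ℝ) 1) (i j : Fin 3) :
    dist (pt c t i) (pt c t j) ≤ 2 + 2 * t := by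
  rw [dist_pt c t hc ht]
  obtain ⟨ht0, ht1⟩ := ht
  have h4 : |1 + t| = 1 + t := abs_of_nonneg (by linarith)
  have h5 : |-t + -1| = 1 + t := by rw [abs_of_nonpos (by linarith)]; ring
  fin_cases i <;> fin_cases j <;> simp only [pt, dist3]
    <;> simp [abs_le, h4, h5] <;> (try constructor) <;> linarith

/-- Comparison of diameters: a pair of points of `A` is at most twice the Gromov-Hausdorff distance
farther apart than the points of `B`. -/
theorem dist_le_add_ghDist (A B : Type) [MetricSpace A] [CompactSpace A] [Nonempty A]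
    [MetricSpace B] [CompactSpace B] [Nonempty B] (x x' : A) (D : ℝ)
    (hB : ∀ y y' : B, dist y y' ≤ D) : dist x x' ≤ D + 2 * ghDist A B := by
  obtain ⟨Φ, Ψ, hΦ, hΨ, h⟩ := ghDist_eq_hausdorffDist A B
  apply le_of_forall_pos_le_add
  intro ε hε
  have hlt : hausdorffDist (range Φ) (range Ψ) < ghDist A B + ε / 2 := by
    rw [← h]; linarith
  have hfin : hausdorffEDist (range Φ) (range Ψ) ≠ ⊤ :=
    hausdorffEDist_ne_top_of_nonempty_of_bounded (range_nonempty _) (range_nonempty _)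
      (isCompact_range hΦ.continuous).isBounded (isCompact_range hΨ.continuous).isBounded
  obtain ⟨_, ⟨y, rfl⟩, hy⟩ := exists_dist_lt_of_hausdorffDist_lt (mem_range_self x) hlt hfin
  obtain ⟨_, ⟨y', rfl⟩, hy'⟩ := exists_dist_lt_of_hausdorffDist_lt (mem_range_self x') hlt hfin
  have h1 : dist (Φ x) (Φ x') ≤ dist (Φ x) (Ψ y) + dist (Ψ y) (Ψ y') + dist (Ψ y') (Φ x') :=
    dist_triangle4 _ _ _ _
  rw [hΦ.dist_eq, hΨ.dist_eq, dist_comm (Ψ y')] at h1
  have := hB y y'
  linarith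

theorem ghDist_K (c c' s t : ℝ) (hc : c ∈ Icc (0 : ℝ) 1) (hc' : c' ∈ Icc (0 : ℝ) 1)
    (hs : s ∈ Icc (0 : ℝ) 1) (ht : t ∈ Icc (0 : ℝ) 1) :
    |s - t| ≤ ghDist (K c s) (K c' t) := by
  rw [abs_le']
  constructor
  · have h := dist_le_add_ghDist (K c s) (K c' t) ⟨pt c s 0, mem_range_self 0⟩
      ⟨pt c s 1, mem_range_self 1⟩ (2 + 2 * t) (by
        rintro ⟨_, i, rfl⟩ ⟨_, j, rfl⟩
        exact dist_pt_le c' t hc' ht i j)
    have h2 : dist (⟨pt c s 0, mem_range_self 0⟩ : K c s) ⟨pt c s 1, mem_range_self 1⟩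
        = 2 + 2 * s := dist_pt01 c s hs.1
    rw [h2] at h
    linarith
  · have h := dist_le_add_ghDist (K c' t) (K c s) ⟨pt c' t 0, mem_range_self 0⟩
      ⟨pt c' t 1, mem_range_self 1⟩ (2 + 2 * s) (by
        rintro ⟨_, i, rfl⟩ ⟨_, j, rfl⟩
        exact dist_pt_le c s hc hs i j)
    have h2 : dist (⟨pt c' t 0, mem_range_self 0⟩ : K c' t) ⟨pt c' t 1, mem_range_self 1⟩
        = 2 + 2 * t := dist_pt01 c' t ht.1
    rw [h2] at h
    have h3 : ghDist (K c' t) (K c s) = ghDist (K c s) (K c' t) := dist_comm _ _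
    rw [h3] at h
    linarith

theorem hausdorffDist_K_le (c s t : ℝ) (hc : c ∈ Icc (0 : ℝ) 1) :
    hausdorffDist (K c s) (K c t) ≤ |s - t| := by
  apply hausdorffDist_le_of_mem_dist (abs_nonneg _)
  · rintro _ ⟨i, rfl⟩
    exact ⟨pt c t i, mem_range_self i, dist_pt_move c s t hc i⟩
  · rintro _ ⟨i, rfl⟩
    refine ⟨pt c s i, mem_range_self i, ?_⟩
    rw [dist_comm]
    exact dist_pt_move c s t hc i

theorem ghDist_K_le (c s t : ℝ) :
    ghDist (K c s) (K c t) ≤ hausdorffDist (K c s) (K c t) := by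
  have h := ghDist_le_hausdorffDist (X := K c s) (Y := K c t) (Φ := Subtype.val)
    (Ψ := Subtype.val) isometry_subtype_coe isometry_subtype_coe
  simpa using h

/-- the geodesic -/
noncomputable def γ (t : unitInterval) : GHSpace := toGHSpace (K 0 t)

theorem zero_mem : (0 : ℝ) ∈ Icc (0 : ℝ) 1 := ⟨le_rfl, zero_le_one⟩

theorem dist_γ (s t : unitInterval) : dist (γ s) (γ t) = |(s : ℝ) - t| := by
  apply le_antisymm
  · exact (ghDist_K_le 0 s t).trans (hausdorffDist_K_le 0 s t zero_mem)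
  · exact ghDist_K 0 0 s t zero_mem zero_mem s.2 t.2

theorem hausdorffDist_K (c s t : ℝ) (hc : c ∈ Icc (0 : ℝ) 1)
    (hs : s ∈ Icc (0 : ℝ) 1) (ht : t ∈ Icc (0 : ℝ) 1) :
    hausdorffDist (K c s) (K c t) = |s - t| :=
  le_antisymm (hausdorffDist_K_le c s t hc) ((ghDist_K c c s t hc hc hs ht).trans (ghDist_K_le c s t))

theorem exists_isometry (c : ℝ) (hc : c ∈ Icc (0 : ℝ) 1) (t : unitInterval) :
    ∃ f : (γ t).Rep → ℝ × ℝ × ℝ, Isometry f ∧ range f = K c t := by
  have h1 : toGHSpace (γ t).Rep = toGHSpace (K 0 t) := (γ t).toGHSpace_rep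
  obtain ⟨e⟩ := toGHSpace_eq_toGHSpace_iff_isometryEquiv.mp h1
  choose idx hidx using fun x : K 0 t => x.2
  have hg : Isometry (fun x : K 0 t => pt c t (idx x)) := by
    apply Isometry.of_dist_eq
    intro x y
    rw [dist_pt c t hc t.2, hidx x, hidx y]
    rfl
  refine ⟨fun r => pt c t (idx (e r)), hg.comp e.isometry, ?_⟩
  apply Subset.antisymm
  · rintro _ ⟨r, rfl⟩
    exact mem_range_self _
  · rintro _ ⟨i, rfl⟩
    refine ⟨e.symm ⟨pt 0 t i, mem_range_self i⟩, ?_⟩
    show pt c t (idx (e (e.symm ⟨pt 0 t i, mem_range_self i⟩))) = pt c t i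
    rw [IsometryEquiv.apply_symm_apply]
    have h2 := hidx ⟨pt 0 t i, mem_range_self i⟩
    have h3 : dist (pt c t (idx ⟨pt 0 t i, mem_range_self i⟩)) (pt c t i) = 0 := by
      rw [dist_pt c t hc t.2, h2]
      exact dist_self _
    exact dist_eq_zero.mp h3

theorem continuous_pt (c : ℝ) (i : Fin 3) : Continuous (fun t : ℝ => pt c t i) := by
  fin_cases i
  · show Continuous (fun t : ℝ => ((1 + t, 0, 0) : ℝ × ℝ × ℝ))
    fun_prop
  · show Continuous (fun t : ℝ => ((-(1 + t), 0, 0) : ℝ × ℝ × ℝ))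
    fun_prop
  · show Continuous (fun t : ℝ => ((0, 2, c * t) : ℝ × ℝ × ℝ))
    fun_prop

theorem isCompact_H (c : ℝ) : IsCompact (H c) := by
  have h : H c = ⋃ i : Fin 3, range (fun t : unitInterval => pt c t i) := by
    ext x
    simp only [H, K, mem_iUnion, mem_range]
    exact exists_comm
  rw [h]
  apply isCompact_iUnion
  intro i
  exact isCompact_range ((continuous_pt c i).comp continuous_subtype_val)

/-- Non-isometry of the ambient spaces. -/
theorem le_of_isometry (c c' : ℝ) (hc : c ∈ Icc (0 : ℝ) 1) (hc' : c' ∈ Icc (0 : ℝ) 1)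
    (e : H c ≃ᵢ H c') : c ≤ c' := by
  -- points of eccentricity at most two
  have hm : ∀ t : unitInterval, ∀ i, pt c t i ∈ H c := fun t i =>
    mem_iUnion.mpr ⟨t, mem_range_self i⟩
  have hm' : ∀ t : unitInterval, ∀ i, pt c' t i ∈ H c' := fun t i =>
    mem_iUnion.mpr ⟨t, mem_range_self i⟩
  have h1 : ∀ (t : unitInterval) (w : H c), dist (⟨pt c t 2, hm t 2⟩ : H c) w ≤ 2 := by
    rintro t ⟨w, hw⟩
    obtain ⟨s, i, rfl⟩ := mem_iUnion.mp hw
    show dist (pt c t 2) (pt c s i) ≤ 2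
    have t0 := t.2.1
    have t1 := t.2.2
    have s0 := s.2.1
    have s1 := s.2.2
    have ct0 : 0 ≤ c * t := mul_nonneg hc.1 t0
    have ct1 : c * t ≤ 1 := mul_le_one₀ hc.2 t0 t1
    have cs0 : 0 ≤ c * s := mul_nonneg hc.1 s0
    have cs1 : c * s ≤ 1 := mul_le_one₀ hc.2 s0 s1
    fin_cases i <;>
      simp only [pt, dist3, max_le_iff, abs_le] <;>
      refine ⟨⟨?_, ?_⟩, ⟨?_, ?_⟩, ?_, ?_⟩ <;> linarith
  -- conversely such points are of the third kind
  have h2 : ∀ z : H c', (∀ w : H c', dist z w ≤ 2) → ∃ s : unitInterval, z.1 = pt c' s 2 := by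
    rintro ⟨z, hz⟩ h
    obtain ⟨s, i, rfl⟩ := mem_iUnion.mp hz
    have s0 := s.2.1
    fin_cases i
    · exfalso
      have h3 := h ⟨pt c' 1 1, hm' 1 1⟩
      have h4 : dist (pt c' s 0) (pt c' 1 1) ≤ 2 := h3
      simp only [pt, dist3] at h4
      have h5 := (le_max_left _ _).trans h4
      rw [abs_le] at h5
      have h6 := h5.2
      linarith
    · exfalso
      have h3 := h ⟨pt c' 1 0, hm' 1 0⟩
      have h4 : dist (pt c' s 1) (pt c' 1 0) ≤ 2 := h3
      simp only [pt, dist3] at h4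
      have h5 := (le_max_left _ _).trans h4
      rw [abs_le] at h5
      have h6 := h5.1
      linarith
    · exact ⟨s, rfl⟩
  have h3 : ∀ t : unitInterval, ∃ s : unitInterval, (e ⟨pt c t 2, hm t 2⟩).1 = pt c' s 2 := by
    intro t
    apply h2
    intro w
    have h4 : dist (e ⟨pt c t 2, hm t 2⟩) w = dist (⟨pt c t 2, hm t 2⟩ : H c) (e.symm w) := by
      conv_lhs => rw [← e.apply_symm_apply w]
      exact e.dist_eq _ _
    rw [h4]
    exact h1 t _
  obtain ⟨s0, hs0⟩ := h3 0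
  obtain ⟨s1, hs1⟩ := h3 1
  have h4 : dist (pt c (0 : unitInterval) 2) (pt c (1 : unitInterval) 2) =
      dist (pt c' s0 2) (pt c' s1 2) := by
    rw [← hs0, ← hs1]
    exact (e.dist_eq ⟨pt c (0 : unitInterval) 2, hm 0 2⟩ ⟨pt c (1 : unitInterval) 2, hm 1 2⟩).symm
  have h5 : dist (pt c (0 : unitInterval) 2) (pt c (1 : unitInterval) 2) = c := by
    simp [pt, hc.1]
  have h6 : dist (pt c' s0 2) (pt c' s1 2) ≤ c' := by
    have a0 := s0.2.1
    have a1 := s0.2.2
    have b0 := s1.2.1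
    have b1 := s1.2.2
    have c0 := hc'.1
    simp only [pt, dist3, sub_self, abs_zero]
    refine max_le c0 (max_le c0 ?_)
    rw [abs_le]
    constructor <;> nlinarith
  rw [h5] at h4
  rw [h4]
  exact h6

/-- The type `H c` as a family indexed by the unit interval. -/
abbrev X (c : unitInterval) : Type := H c

/-- **Main theorem.** There are a Gromov-Hausdorff geodesic `γ` and compact metric spaces `X c`,
`c ∈ [0,1]`, together with Hausdorff realizations of `γ` in all the `X c`, such that for `c ≠ c'`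
neither `X c` and `X c'` nor the unions of the two realizations are isometric. -/
theorem result : ∃ γ : unitInterval → GHSpace, IsGHGeodesic γ ∧ dist (γ 0) (γ 1) = 1 ∧
    ∃ (X : unitInterval → Type) (_ : ∀ c, MetricSpace (X c)) (_ : ∀ c, CompactSpace (X c))
      (φ : ∀ c t : unitInterval, (γ t).Rep → X c),
      (∀ c, IsHausdorffRealization γ (φ c)) ∧ (∀ c, hull (φ c) = univ) ∧
      ∀ c c', c ≠ c' → IsEmpty (X c ≃ᵢ X c') ∧ IsEmpty (hull (φ c) ≃ᵢ hull (φ c')) := by
  have hmem : ∀ (c : ℝ) (t : unitInterval), K c t ⊆ H c := fun c t x hx =>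
    mem_iUnion.mpr ⟨t, hx⟩
  choose f hf1 hf2 using fun (c : unitInterval) (t : unitInterval) => exists_isometry c c.2 t
  have hmem2 : ∀ (c t : unitInterval) (r : (γ t).Rep), f c t r ∈ H c := fun c t r =>
    hmem c t (by rw [← hf2 c t]; exact mem_range_self r)
  let φ : ∀ c t : unitInterval, (γ t).Rep → X c := fun c t r => ⟨f c t r, hmem2 c t r⟩
  have hval : ∀ c t : unitInterval, (Subtype.val '' range (φ c t) : Set (ℝ × ℝ × ℝ)) = K c t := by
    intro c t
    rw [← hf2 c t, ← range_comp]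
    rfl
  have hhull : ∀ c, hull (φ c) = univ := by
    intro c
    rw [eq_univ_iff_forall]
    rintro ⟨x, hx⟩
    obtain ⟨t, ht⟩ := mem_iUnion.mp hx
    rw [← hf2 c t] at ht
    obtain ⟨r, rfl⟩ := ht
    exact mem_iUnion.mpr ⟨t, mem_range_self r⟩
  have hne : ∀ c c' : unitInterval, c ≠ c' → IsEmpty (X c ≃ᵢ X c') := by
    intro c c' hcc'
    refine ⟨fun e => hcc' ?_⟩
    apply Subtype.ext
    exact le_antisymm (le_of_isometry c c' c.2 c'.2 e) (le_of_isometry c' c c'.2 c.2 e.symm)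
  refine ⟨γ, ?_, ?_, X, fun c => inferInstance, fun c => isCompact_iff_compactSpace.mp (isCompact_H c),
    φ, ?_, hhull, ?_⟩
  · intro s t
    rw [dist_γ, dist_γ]
    simp
  · rw [dist_γ]
    simp
  · intro c
    refine ⟨fun t => ?_, fun s t => ?_⟩
    · apply Isometry.of_dist_eq
      intro x y
      exact (hf1 c t).dist_eq x y
    · rw [dist_γ, ← hausdorffDist_image (isometry_subtype_coe (s := H c)), hval, hval]
      exact hausdorffDist_K c s t c.2 s.2 t.2
  · intro c c' hcc'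
    refine ⟨hne c c' hcc', ⟨fun e => (hne c c' hcc').false ?_⟩⟩
    rw [hhull c, hhull c'] at e
    have u : ∀ c : unitInterval, (univ : Set (X c)) ≃ᵢ X c := fun c =>
      ⟨Equiv.Set.univ _, isometry_subtype_coe⟩
    exact ((u c).symm.trans e).trans (u c')

end Pool.Agent.Results.MP_457a5a_gt.NonUniqueHull
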